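import Mathlib
import Pool.Agent.S08001

/-!
# Abelian avoidability of six patterns on four variables (MP_a7fafd_co, Q1, full answer)

All six patterns `01020312`, `01020321`, `01021303`, `01023031`, `010203013`, `010213020` are
avoidable in the abelian sense.  The proof checks that none of them has an abelian occurrence in
the Zimin word `Z₄` (of length 15), and then uses the characterisation of abelian avoidable
patterns by Zimin words (`Pool.Agent.S08001.result`).
-/

namespace Pool.Agent.Results.MP_a7fafd_co.SixPatterns

/-- The word `w` encounters the pattern `p` in the abelian sense: `w` has a factor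
`u₁ u₂ ⋯ u_m` (`m = |p|`) where every `u_i` is a nonempty word, and `u_i`, `u_j` are permutations
of each other whenever `p_i = p_j`. -/
def Encounters {A : Type*} (p : List ℕ) (w : List A) : Prop :=
  ∃ u : Fin p.length → List A, (∀ i, u i ≠ []) ∧ (List.ofFn u).flatten <:+: w ∧
    ∀ i j : Fin p.length, p.get i = p.get j → (u i).Perm (u j)

/-- The pattern `p` is avoidable in the abelian sense: over some finite alphabet, infinitely many
finite words avoid `p` in the abelian sense. -/
def AbelianAvoidable (p : List ℕ) : Prop :=
  ∃ k : ℕ, {w : List (Fin k) | ¬ Encounters p w}.Infinite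

/-- The six patterns of the problem. -/
def six : List (List ℕ) :=
  [[0, 1, 0, 2, 0, 3, 1, 2], [0, 1, 0, 2, 0, 3, 2, 1], [0, 1, 0, 2, 1, 3, 0, 3],
   [0, 1, 0, 2, 3, 0, 3, 1], [0, 1, 0, 2, 0, 3, 0, 1, 3], [0, 1, 0, 2, 1, 3, 0, 2, 0]]

/-! ### The search for abelian occurrences -/

/-- Does some initial segment of `w` form an abelian occurrence of `p`, given the blocks `env`
already assigned to the variables? -/
def search : List ℕ → List ℕ → List (ℕ × List ℕ) → Bool
  | [], _, _ => true
  | v :: p, w, env =>
    (List.range w.length).any (fun l =>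
      match env.find? (fun e => e.1 == v) with
      | some e => e.2.isPerm (w.take (l + 1)) && search p (w.drop (l + 1)) env
      | none => search p (w.drop (l + 1)) ((v, w.take (l + 1)) :: env))

theorem search_sound (L : List (ℕ × List ℕ)) (w : List ℕ) (env : List (ℕ × List ℕ))
    (h1 : ∀ x ∈ L, x.2 ≠ []) (h2 : ∀ x ∈ L, ∀ y ∈ L, x.1 = y.1 → x.2.Perm y.2)
    (h3 : ∀ e ∈ env, ∀ x ∈ L, e.1 = x.1 → e.2.Perm x.2)
    (h4 : (L.map Prod.snd).flatten <+: w) : search (L.map Prod.fst) w env = true := by
  induction L generalizing w env with
  | nil => rfl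
  | cons x L ih =>
    obtain ⟨t, rfl⟩ := h4
    rw [List.map_cons, List.map_cons, search, List.any_eq_true]
    have hx := h1 x (List.mem_cons_self)
    have hpos : 0 < x.2.length := List.length_pos_iff.mpr hx
    refine ⟨x.2.length - 1, ?_, ?_⟩
    · rw [List.mem_range]
      simp only [List.flatten_cons, List.append_assoc, List.length_append]
      omega
    · have e1 : x.2.length - 1 + 1 = x.2.length := by omega
      have e2 : (x.2 :: L.map Prod.snd).flatten ++ t = x.2 ++ ((L.map Prod.snd).flatten ++ t) := by
        simp
      rw [e1, e2, List.take_left, List.drop_left]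
      have ih' := fun env' h => ih ((L.map Prod.snd).flatten ++ t) env'
        (fun y hy => h1 y (List.mem_cons_of_mem _ hy))
        (fun y hy z hz => h2 y (List.mem_cons_of_mem _ hy) z (List.mem_cons_of_mem _ hz))
        h (List.prefix_append _ _)
      cases hf : env.find? (fun e => e.1 == x.1) with
      | some e =>
        have hmem := List.mem_of_find?_eq_some hf
        have heq : e.1 = x.1 := by
          have := List.find?_some hf
          simpa using this
        simp only [Bool.and_eq_true, List.isPerm_iff]
        exact ⟨h3 e hmem x List.mem_cons_self heq,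
          ih' env (fun e he y hy => h3 e he y (List.mem_cons_of_mem _ hy))⟩
      | none =>
        simp only
        apply ih'
        intro e he y hy hey
        rcases List.mem_cons.mp he with rfl | he
        · exact h2 x List.mem_cons_self y (List.mem_cons_of_mem _ hy) hey
        · exact h3 e he y (List.mem_cons_of_mem _ hy) hey

/-- The Zimin word `Z₄`. -/
def Z4 : List ℕ := [1, 2, 1, 3, 1, 2, 1, 4, 1, 2, 1, 3, 1, 2, 1]

theorem search_six : ∀ p ∈ six, ∀ i ∈ List.range 16, search p (Z4.drop i) [] = false := by
  decide +kernel

theorem not_occurs_of_search {p w : List ℕ} (hp : ∀ i ∈ List.range 16, search p (Z4.drop i) [] = false)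
    (hw : w <:+: Z4) (f : Fin p.length → List ℕ) (h1 : ∀ t, f t ≠ [])
    (h2 : (List.ofFn f).flatten = w)
    (h3 : ∀ a b : Fin p.length, p.get a = p.get b → (f a).Perm (f b)) : False := by
  obtain ⟨s, t, hst⟩ := hw
  have hlen : s.length < 16 := by
    have := congrArg List.length hst
    simp only [List.length_append] at this
    have hz : Z4.length = 15 := rfl
    omega
  have hdrop : Z4.drop s.length = w ++ t := by
    rw [← hst, List.append_assoc, List.drop_left]
  have hs := hp s.length (List.mem_range.mpr hlen)
  let L : List (ℕ × List ℕ) := List.ofFn (fun i : Fin p.length => (p.get i, f i))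
  have hL1 : L.map Prod.fst = p := by
    simp only [L, List.map_ofFn]
    have : (Prod.fst ∘ fun i : Fin p.length => (p.get i, f i)) = p.get := rfl
    rw [this, List.ofFn_get]
  have hL2 : L.map Prod.snd = List.ofFn f := by
    simp only [L, List.map_ofFn]
    rfl
  have hmem : ∀ x ∈ L, ∃ i, x = (p.get i, f i) := by
    intro x hx
    obtain ⟨i, hi⟩ := (List.mem_ofFn' _ _).mp hx
    exact ⟨i, hi.symm⟩
  have := search_sound L (Z4.drop s.length) []
    (fun x hx => by
      obtain ⟨i, rfl⟩ := hmem x hx
      exact h1 i)
    (fun x hx y hy hxy => by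
      obtain ⟨i, rfl⟩ := hmem x hx
      obtain ⟨j, rfl⟩ := hmem y hy
      exact h3 i j hxy)
    (fun e he => by simp at he)
    (by
      rw [hL2, h2, hdrop]
      exact List.prefix_append _ _)
  rw [hL1, hs] at this
  cases this

/-- An infinite word without abelian occurrences of `p` gives infinitely many finite words. -/
theorem avoidable_of_infinite_word {p : List ℕ} {k : ℕ} {x : ℕ → Fin k}
    (hx : ∀ i m : ℕ, ¬ ∃ f : Fin p.length → List (Fin k), (∀ t, f t ≠ []) ∧
      (List.ofFn f).flatten = (List.range m).map (fun t => x (i + t)) ∧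
      ∀ a b : Fin p.length, p.get a = p.get b → (f a).Perm (f b)) : AbelianAvoidable p := by
  refine ⟨k, ?_⟩
  have hinj : Function.Injective (fun n : ℕ => (List.range n).map x) := by
    intro m n hmn
    have := congrArg List.length hmn
    simpa using this
  refine (Set.infinite_range_of_injective hinj).mono ?_
  rintro _ ⟨n, rfl⟩ ⟨u, h1, ⟨s, t, hst⟩, h3⟩
  apply hx s.length ((List.ofFn u).flatten.length)
  refine ⟨u, h1, ?_, h3⟩
  apply List.ext_getElem?
  intro j
  have hj : (s ++ (List.ofFn u).flatten ++ t)[s.length + j]? = ((List.range n).map x)[s.length + j]? := by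
    rw [hst]
  rcases Nat.lt_or_ge j (List.ofFn u).flatten.length with h | h
  · have hlen := congrArg List.length hst
    simp only [List.length_append, List.length_map, List.length_range] at hlen
    rw [List.append_assoc, List.getElem?_append_right (by omega),
      List.getElem?_append_left (by omega), Nat.add_sub_cancel_left] at hj
    rw [hj, List.getElem?_map, List.getElem?_range (by omega), List.getElem?_map,
      List.getElem?_range h]
    rfl
  · rw [List.getElem?_eq_none h, List.getElem?_eq_none (by simpa using h)]

/-- **MP_a7fafd_co, Q1.** Each of the six patterns `01020312`, `01020321`, `01021303`,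
`01023031`, `010203013`, `010213020` is avoidable in the abelian sense. -/
theorem result :
    AbelianAvoidable [0, 1, 0, 2, 0, 3, 1, 2] ∧ AbelianAvoidable [0, 1, 0, 2, 0, 3, 2, 1] ∧
    AbelianAvoidable [0, 1, 0, 2, 1, 3, 0, 3] ∧ AbelianAvoidable [0, 1, 0, 2, 3, 0, 3, 1] ∧
    AbelianAvoidable [0, 1, 0, 2, 0, 3, 0, 1, 3] ∧
    AbelianAvoidable [0, 1, 0, 2, 1, 3, 0, 2, 0] := by
  have hc : ∀ p ∈ six, p.toFinset.card = 4 := by decide
  have key : ∀ p ∈ six, AbelianAvoidable p := by
    intro p hp
    obtain ⟨k, x, hx⟩ := (Pool.Agent.S08001.result p).mpr (by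
      rintro ⟨w, hw, f, h1, h2, h3⟩
      rw [hc p hp] at hw
      exact not_occurs_of_search (search_six p hp) hw f h1 h2 h3)
    exact avoidable_of_infinite_word hx
  refine ⟨key _ ?_, key _ ?_, key _ ?_, key _ ?_, key _ ?_, key _ ?_⟩ <;> simp [six]

end Pool.Agent.Results.MP_a7fafd_co.SixPatterns
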